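import Pool.Agent.H15.SC.TargetsX

/-!
Quasi-compactness of the charts, for XJ and XO (MP_f2954d_ag, block B5).
-/

namespace Pool.Agent.H70.SCX

open SC

/-- quasi-compactness of the set of maximal ideals -/
lemma cover {R : Type} [CommRing R] (G : Ideal R → Ideal R → Prop)
    (h : ∀ p : Ideal R, p.IsMaximal → ∃ a, a ∉ p ∧ ∀ p' : Ideal R, p'.IsMaximal → a ∉ p' → G p p') :
    ∃ F : Finset (Ideal R), (∀ p ∈ F, p.IsMaximal) ∧
      ∀ p' : Ideal R, p'.IsMaximal → ∃ p ∈ F, G p p' := by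
  classical
  choose! a ha1 ha2 using h
  have htop : Ideal.span (a '' {p | p.IsMaximal}) = ⊤ := by
    by_contra hne
    obtain ⟨m, hm, hle⟩ := Ideal.exists_le_maximal _ hne
    exact ha1 m hm (hle (Ideal.subset_span ⟨m, hm, rfl⟩))
  have h1 : (1 : R) ∈ Ideal.span (a '' {p | p.IsMaximal}) := by rw [htop]; trivial
  obtain ⟨T, hT1, hT2⟩ := Submodule.mem_span_finite_of_mem_span h1
  obtain ⟨F, hF1, hF2⟩ := Finset.subset_set_image_iff.1 hT1
  refine ⟨F, fun p hp => hF1 hp, ?_⟩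
  intro p' hp'
  by_contra hc
  push Not at hc
  apply hp'.ne_top
  rw [Ideal.eq_top_iff_one]
  have : Ideal.span (T : Set R) ≤ p' := by
    rw [Ideal.span_le]
    intro x hx
    rw [← hF2] at hx
    simp only [Finset.coe_image, Set.mem_image, Finset.mem_coe] at hx
    obtain ⟨p, hp, rfl⟩ := hx
    by_contra hx
    exact hc p hp (ha2 p (hF1 hp) p' hp' hx)
  exact this hT2

variable {K : Type} [Field K] [Algebra ℂ K] {N : ℕ} {w : Fin (N + 1) → K}

/-- a function separating a prime divisor from a point -/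
lemma nbhd_one {i : Fin (N + 1)} (p : Ideal (chart w i)) (hp : p.IsMaximal) (v : PDiv w)
    (hv : ¬ Through v p) : ∃ a : chart w i, a ∉ p ∧
      ((∀ b ∈ chart w i, 0 ≤ v.1.ord b) → 0 < v.1.ord a) ∧
      ∀ p' : Ideal (chart w i), a ∉ p' → ¬ Through v p' := by
  by_cases h : ∀ b ∈ chart w i, 0 ≤ v.1.ord b
  · unfold Through at hv
    push Not at hv
    obtain ⟨a, ha1, ha2⟩ := hv h
    exact ⟨a, ha2, fun _ => ha1, fun p' h1 h2 => h1 (h2.2 a ha1)⟩
  · exact ⟨1, fun h1 => hp.ne_top ((Ideal.eq_top_iff_one p).2 h1), fun h1 => absurd h1 h,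
      fun p' _ h2 => h h2.1⟩

/-- a neighbourhood of `p` which does not meet finitely many prime divisors -/
lemma nbhd {i : Fin (N + 1)} (p : Ideal (chart w i)) (hp : p.IsMaximal) (Z : Set (PDiv w))
    (hZ : Z.Finite) (h : ∀ v ∈ Z, ¬ Through v p) : ∃ a : chart w i, a ∉ p ∧
      ∀ p' : Ideal (chart w i), a ∉ p' → ∀ v ∈ Z, ¬ Through v p' := by
  classical
  induction Z, hZ using Set.Finite.induction_on with
  | empty => exact ⟨1, fun h1 => hp.ne_top ((Ideal.eq_top_iff_one p).2 h1), by simp⟩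
  | @insert v Z _ _ ih =>
    obtain ⟨a, ha1, ha2⟩ := ih (fun v hv => h v (Set.mem_insert_of_mem _ hv))
    obtain ⟨b, hb1, _, hb2⟩ := nbhd_one p hp v (h v (Set.mem_insert _ _))
    refine ⟨a * b, fun hab => ?_, ?_⟩
    · rcases hp.isPrime.mem_or_mem hab with h1 | h1
      · exact ha1 h1
      · exact hb1 h1
    · intro p' hp' u hu
      rcases hu with rfl | hu
      · exact hb2 p' (fun h1 => hp' (Ideal.mul_mem_left _ _ h1))
      · exact ha2 p' (fun h1 => hp' (Ideal.mul_mem_right _ _ h1)) u hu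

/-- finitely many prime divisors are zeros or poles of `f` or belong to `D` -/
lemma finite_Z (hXD : T_XD) {n : ℕ} (hw : IsSmoothProj w n) (D : DivZ w) (f : K) :
    {v : PDiv w | v.1.ord f + D v ≠ 0}.Finite := by
  refine ((hXD K N n w hw f).union D.hasFiniteSupport).subset ?_
  intro v hv
  simp only [Set.mem_union, Set.mem_ofPred_eq, Function.mem_support] at hv ⊢
  by_contra hc
  push Not at hc
  apply hv
  rw [hc.1, hc.2, add_zero]

theorem xj (hXD : T_XD) : T_XJ := by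
  intro K _ _ N n w hw D
  classical
  constructor
  · intro hD
    have h1 : ∀ i, ∃ T : Set K, T.Finite ∧ (∀ x ∈ T, x ∈ sections D) ∧ (w i ≠ 0 →
        ∀ p : Ideal (chart w i), p.IsMaximal → ∃ x ∈ T, GenAt D p x) := by
      intro i
      by_cases hi : w i = 0
      · exact ⟨∅, Set.finite_empty, by simp, fun h => absurd hi h⟩
      have h2 := hD i hi
      choose! f hf1 hf2 hf3 using h2
      obtain ⟨F, hF1, hF2⟩ := cover (R := chart w i) (fun p p' => GenAt D p' (f p)) (by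
        intro p hp
        obtain ⟨a, ha1, ha2⟩ := nbhd p hp {v : PDiv w | v.1.ord (f p) + D v ≠ 0}
          (finite_Z hXD hw D (f p)) (fun v hv ht => hv (hf3 p hp v ht))
        refine ⟨a, ha1, fun p' _ hp'a => ⟨hf2 p hp, fun v hv => ?_⟩⟩
        by_contra hc
        exact ha2 p' hp'a v hc hv)
      refine ⟨f '' (F : Set (Ideal (chart w i))), (Finset.finite_toSet F).image f, ?_, ?_⟩
      · rintro _ ⟨p, hp, rfl⟩
        exact hf1 p (hF1 p hp)
      · intro _ p hp
        obtain ⟨q, hq1, hq2⟩ := hF2 p hp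
        exact ⟨f q, ⟨q, hq1, rfl⟩, hq2⟩
    choose T hT1 hT2 hT3 using h1
    have hfin : (⋃ i, T i).Finite := Set.finite_iUnion hT1
    let e := hfin.toFinset.equivFin
    refine ⟨⟨hfin.toFinset.card, fun j => (e.symm j : K)⟩, ?_, ?_⟩
    · intro j
      have h3 : ((e.symm j : hfin.toFinset) : K) ∈ ⋃ i, T i := hfin.mem_toFinset.1 (e.symm j).2
      obtain ⟨i, hi⟩ := Set.mem_iUnion.1 h3
      exact hT2 i _ hi
    · intro i hi p hp
      obtain ⟨x, hx1, hx2⟩ := hT3 i hi p hp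
      have h3 : x ∈ hfin.toFinset := hfin.mem_toFinset.2 (Set.mem_iUnion.2 ⟨i, hx1⟩)
      refine ⟨e ⟨x, h3⟩, ?_⟩
      simpa using hx2
  · rintro ⟨S, hS1, hS2⟩ i hi p hp
    obtain ⟨j, hj⟩ := hS2 i hi p hp
    exact ⟨S.s j, hS1 j, hj.1, hj.2⟩

end Pool.Agent.H70.SCX
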