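import Pool.Agent.H70.SCX.XJ

/-!
XO (MP_f2954d_ag, block B5): the hyperplane divisor is ample.
-/

namespace Pool.Agent.H70.SCX

open SC

variable {K : Type} [Field K] [Algebra ℂ K] {N : ℕ} {w : Fin (N + 1) → K}

lemma mem_chart (i j : Fin (N + 1)) : w j / w i ∈ chart w i :=
  Algebra.subset_adjoin ⟨j, rfl⟩

/-- nonnegativity on a chart -/
lemma chart_nonneg (v : DV ℂ K) (i : Fin (N + 1)) (h : ∀ j, 0 ≤ v.ord (w j / w i)) :
    ∀ a ∈ chart w i, 0 ≤ v.ord a := by
  intro a ha
  induction ha using Algebra.adjoin_induction with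
  | mem x hx =>
    obtain ⟨j, rfl⟩ := hx
    exact h j
  | algebraMap r => rw [v.ord_base]
  | add x y _ _ hx hy => exact v.ord_add_nonneg hx hy
  | mul x y _ _ hx hy => exact v.ord_mul_nonneg hx hy

lemma mo_wsys (v : DV ℂ K) (i : Fin (N + 1)) (hi : w i ≠ 0) (h : ∀ a ∈ chart w i, 0 ≤ v.ord a) :
    v.mo (wsys w) = v.ord (w i) := by
  apply v.mo_eq_of
  · intro j hj
    have h1 := h _ (mem_chart i j)
    rw [v.ord_div (show w j ≠ 0 from hj) hi] at h1
    change v.ord (w i) ≤ v.ord (w j)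
    omega
  · exact ⟨i, hi, rfl⟩

lemma mo_wsys_lt (v : DV ℂ K) (i : Fin (N + 1)) (hi : w i ≠ 0)
    (h : ¬ ∀ a ∈ chart w i, 0 ≤ v.ord a) : v.mo (wsys w) < v.ord (w i) := by
  by_contra hc
  push Not at hc
  apply h
  apply chart_nonneg
  intro j
  by_cases hj : w j = 0
  · rw [hj, zero_div, v.ord_zero]
  rw [v.ord_div hj hi]
  have h1 : v.mo (wsys w) ≤ v.ord (w j) := v.mo_le (wsys w) j hj
  omega

/-- removing the poles off `p` -/
lemma exists_clear {i : Fin (N + 1)} (p : Ideal (chart w i)) (hp : p.IsMaximal)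
    (m : PDiv w → ℤ) (Z : Set (PDiv w)) (hZ : Z.Finite) (h : ∀ v ∈ Z, ¬ Through v p) :
    ∃ a : chart w i, a ∉ p ∧ ∀ v ∈ Z, (∀ b ∈ chart w i, 0 ≤ v.1.ord b) → m v ≤ v.1.ord a := by
  classical
  induction Z, hZ using Set.Finite.induction_on with
  | empty => exact ⟨1, fun h1 => hp.ne_top ((Ideal.eq_top_iff_one p).2 h1), by simp⟩
  | @insert v Z _ _ ih =>
    obtain ⟨a, ha1, ha2⟩ := ih (fun v hv => h v (Set.mem_insert_of_mem _ hv))
    obtain ⟨b, hb1, hb3, _⟩ := nbhd_one p hp v (h v (Set.mem_insert _ _))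
    have hbn : b ^ (m v).toNat ∉ p := fun h1 => hb1 (hp.isPrime.mem_of_pow_mem _ h1)
    have ha0 : (a : K) ≠ 0 := fun h1 => ha1 (by
      have : a = 0 := Subtype.ext h1
      rw [this]; exact p.zero_mem)
    have hb0 : (b : K) ≠ 0 := fun h1 => hb1 (by
      have : b = 0 := Subtype.ext h1
      rw [this]; exact p.zero_mem)
    have hord : ∀ u : PDiv w, u.1.ord ((a * b ^ (m v).toNat : chart w i) : K) =
        u.1.ord (a : K) + (m v).toNat * u.1.ord (b : K) := by
      intro u
      have : ((a * b ^ (m v).toNat : chart w i) : K) = (a : K) * (b : K) ^ (m v).toNat := by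
        push_cast; rfl
      rw [this, u.1.ord_mul _ _ ha0 (pow_ne_zero _ hb0), u.1.ord_pow]
    refine ⟨a * b ^ (m v).toNat, fun hab => ?_, ?_⟩
    · rcases hp.isPrime.mem_or_mem hab with h1 | h1
      · exact ha1 h1
      · exact hbn h1
    · intro u hu hun
      rw [hord]
      rcases hu with rfl | hu
      · have h1 := hb3 hun
        have h2 := hun _ a.2
        have h3 : ((m u).toNat : ℤ) ≤ (m u).toNat * u.1.ord (b : K) := by
          nlinarith [Int.natCast_nonneg (m u).toNat]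
        have h4 := Int.self_le_toNat (m u)
        omega
      · have h1 := ha2 u hu hun
        have h2 := hun _ b.2
        have h3 : 0 ≤ ((m v).toNat : ℤ) * u.1.ord (b : K) :=
          mul_nonneg (Int.natCast_nonneg _) h2
        omega

theorem xo (hXE : T_XE) (hXD : T_XD) : T_XO := by
  intro K _ _ N n w hw i0 H0 hH D
  classical
  obtain ⟨hi0, hH0⟩ := hH
  -- one chart
  have key : ∀ i, ∃ m0 : ℕ, w i ≠ 0 → ∀ m : ℕ, m0 ≤ m → ∀ p : Ideal (chart w i), p.IsMaximal →
      ∃ f ∈ sections (D + m • H0), f ≠ 0 ∧ ∀ v : PDiv w, Through v p →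
        v.1.ord f + (D + m • H0) v = 0 := by
    intro i
    by_cases hi : w i = 0
    · exact ⟨0, fun h => absurd hi h⟩
    -- local data
    have hloc : ∀ p : Ideal (chart w i), p.IsMaximal → ∃ (g : K) (m1 : ℕ), g ≠ 0 ∧
        (∀ v : PDiv w, Through v p → v.1.ord g + D v = 0) ∧
        (∀ v : PDiv w, (∀ b ∈ chart w i, 0 ≤ v.1.ord b) → 0 ≤ v.1.ord g + D v) ∧
        (∀ v : PDiv w, 0 ≤ v.1.ord g + D v + m1) := by
      intro p hp
      obtain ⟨f, hf0, hf⟩ := hXE K N n w hw D i p hi hp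
      obtain ⟨a, ha1, ha2⟩ := exists_clear p hp (fun v => -(v.1.ord f + D v))
        {v : PDiv w | v.1.ord f + D v ≠ 0} (finite_Z hXD hw D f)
        (fun v hv ht => hv (hf v ht))
      have ha0 : (a : K) ≠ 0 := fun h1 => ha1 (by
        have : a = 0 := Subtype.ext h1
        rw [this]; exact p.zero_mem)
      have hfa : f * (a : K) ≠ 0 := mul_ne_zero hf0 ha0
      have hord : ∀ v : PDiv w, v.1.ord (f * (a : K)) = v.1.ord f + v.1.ord (a : K) :=
        fun v => v.1.ord_mul _ _ hf0 ha0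
      have hfin := finite_Z hXD hw D (f * (a : K))
      refine ⟨f * (a : K), ∑ v ∈ hfin.toFinset, (-(v.1.ord (f * (a : K)) + D v)).toNat, hfa,
        ?_, ?_, ?_⟩
      · intro v hv
        rw [hord]
        have h1 := hf v hv
        have h2 : ¬ 0 < v.1.ord (a : K) := fun h => ha1 (hv.2 a h)
        have h3 := hv.1 _ a.2
        omega
      · intro v hv
        rw [hord]
        have h3 := hv _ a.2
        by_cases h : v.1.ord f + D v = 0
        · omega
        · have := ha2 v h hv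
          omega
      · intro v
        by_cases h : v.1.ord (f * (a : K)) + D v = 0
        · rw [h]; positivity
        · have h1 : (-(v.1.ord (f * (a : K)) + D v)).toNat ≤
              ∑ v ∈ hfin.toFinset, (-(v.1.ord (f * (a : K)) + D v)).toNat :=
            Finset.single_le_sum (f := fun v : PDiv w => (-(v.1.ord (f * (a : K)) + D v)).toNat)
              (fun _ _ => Nat.zero_le _) (hfin.mem_toFinset.2 h)
          have h2 := Int.self_le_toNat (-(v.1.ord (f * (a : K)) + D v))
          have h3 : (((-(v.1.ord (f * (a : K)) + D v)).toNat : ℕ) : ℤ) ≤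
              ((∑ v ∈ hfin.toFinset, (-(v.1.ord (f * (a : K)) + D v)).toNat : ℕ) : ℤ) := by
            exact_mod_cast h1
          omega
    choose! g m1 hg1 hg2 hg3 hg4 using hloc
    obtain ⟨F, hF1, hF2⟩ := cover (R := chart w i)
      (fun p p' => ∀ v : PDiv w, Through v p' → v.1.ord (g p) + D v = 0) (by
        intro p hp
        obtain ⟨a, ha1, ha2⟩ := nbhd p hp {v : PDiv w | v.1.ord (g p) + D v ≠ 0}
          (finite_Z hXD hw D (g p)) (fun v hv ht => hv (hg2 p hp v ht))
        refine ⟨a, ha1, fun p' _ hp'a v hv => ?_⟩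
        by_contra hc
        exact ha2 p' hp'a v hc hv)
    refine ⟨∑ p ∈ F, m1 p, fun _ m hm p' hp' => ?_⟩
    obtain ⟨p, hp, hpG⟩ := hF2 p' hp'
    have hpm := hF1 p hp
    have hm1 : m1 p ≤ m := le_trans (Finset.single_le_sum (f := m1)
      (fun _ _ => Nat.zero_le _) hp) hm
    have hq0 : w i / w i0 ≠ 0 := div_ne_zero hi hi0
    have hord : ∀ v : PDiv w, v.1.ord (g p * (w i / w i0) ^ m) =
        v.1.ord (g p) + m * (v.1.ord (w i) - v.1.ord (w i0)) := by
      intro v
      rw [v.1.ord_mul _ _ (hg1 p hpm) (pow_ne_zero _ hq0), v.1.ord_pow, v.1.ord_div hi hi0]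
    have hDm : ∀ v : PDiv w, (D + m • H0) v = D v + m * (v.1.ord (w i0) - v.1.mo (wsys w)) := by
      intro v
      rw [Finsupp.add_apply, Finsupp.smul_apply, hH0, nsmul_eq_mul]
    have htot : ∀ v : PDiv w, v.1.ord (g p * (w i / w i0) ^ m) + (D + m • H0) v =
        v.1.ord (g p) + D v + m * (v.1.ord (w i) - v.1.mo (wsys w)) := by
      intro v
      rw [hord, hDm]; ring
    refine ⟨g p * (w i / w i0) ^ m, ?_, mul_ne_zero (hg1 p hpm) (pow_ne_zero _ hq0), ?_⟩
    · intro v
      right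
      rw [htot]
      by_cases hv : ∀ b ∈ chart w i, 0 ≤ v.1.ord b
      · rw [mo_wsys v.1 i hi hv, sub_self, mul_zero, add_zero]
        exact hg3 p hpm v hv
      · have h1 := mo_wsys_lt v.1 i hi hv
        have h2 := hg4 p hpm v
        have h3 : (m : ℤ) ≤ m * (v.1.ord (w i) - v.1.mo (wsys w)) := by
          nlinarith [Int.natCast_nonneg m]
        have h4 : (m1 p : ℤ) ≤ m := by exact_mod_cast hm1
        omega
    · intro v hv
      rw [htot, mo_wsys v.1 i hi hv.1, sub_self, mul_zero, add_zero]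
      exact hpG v hv
  choose m0 hm0 using key
  refine ⟨∑ i, m0 i, fun m hm i hi p hp => ?_⟩
  exact hm0 i hi m (le_trans (Finset.single_le_sum (f := m0)
    (fun _ _ => Nat.zero_le _) (Finset.mem_univ i)) hm) p hp

end Pool.Agent.H70.SCX
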