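import Pool.Agent.H15.SC.TargetsX

/-!
XH2 (MP_f2954d_ag, block B5): the residue field of a prime divisor has transcendence degree `n - 1`.
-/

namespace Pool.Agent.H70.SCX

open SC MvPolynomial

lemma exists_degreeOf_ne_zero {s : ℕ} {f : MvPolynomial (Fin s) ℂ} (hf : Prime f) :
    ∃ j, f.degreeOf j ≠ 0 := by
  by_contra hc
  push Not at hc
  have h1 : f.totalDegree = 0 := by
    rw [totalDegree_eq_zero_iff]
    intro m hm j
    have := monomial_le_degreeOf j hm
    rw [hc j] at this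
    omega
  rw [totalDegree_eq_zero_iff_eq_C] at h1
  apply hf.not_isUnit
  rw [h1]
  have h2 : coeff 0 f ≠ 0 := by
    intro h
    rw [h, C_0] at h1
    exact hf.ne_zero h1
  exact (isUnit_iff_ne_zero.2 h2).map C

lemma indep_of_prime {s : ℕ} {E : Type} [Field E] [Algebra ℂ E] (x : Fin s → E)
    {f : MvPolynomial (Fin s) ℂ} (hf : Prime f) (hker : ∀ h, aeval x h = 0 → f ∣ h) :
    ∃ j0, AlgebraicIndependent ℂ (fun j : {j : Fin s // j ≠ j0} => x j) := by
  obtain ⟨j0, hj0⟩ := exists_degreeOf_ne_zero hf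
  refine ⟨j0, ?_⟩
  rw [algebraicIndependent_iff]
  intro h hh
  have h1 : aeval x (rename Subtype.val h) = 0 := by
    rw [aeval_rename]
    exact hh
  obtain ⟨c, hc⟩ := hker _ h1
  by_contra hne
  have h2 : rename (Subtype.val : {j : Fin s // j ≠ j0} → Fin s) h ≠ 0 := by
    intro h0
    apply hne
    exact rename_injective _ Subtype.val_injective (by rw [h0, map_zero])
  have hc0 : c ≠ 0 := by
    rintro rfl
    rw [mul_zero] at hc
    exact h2 hc
  have h3 : degreeOf j0 (rename (Subtype.val : {j : Fin s // j ≠ j0} → Fin s) h) = 0 := by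
    by_contra h4
    have h4' := mem_vars_iff_degreeOf_ne_zero.2 h4
    obtain ⟨a, _, ha⟩ := mem_vars_rename _ _ h4'
    exact a.2 ha
  rw [hc, degreeOf_mul_eq hf.ne_zero hc0] at h3
  omega

theorem xh2 (hV3b : T_V3b) (hXA1 : T_XA1) (hXH1 : T_XH1) : T_XH2 := by
  intro K _ _ N n w hw v
  classical
  obtain ⟨i, hi, hnn, hloc⟩ := v.2
  have hfg : IntermediateField.adjoin ℂ (Set.range fun j => v.1.red (w j / w i)) = ⊤ :=
    hXH1 K N (n + 1) w hw v i hi hnn
  have hess : Algebra.EssFiniteType ℂ v.1.Res := by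
    rw [← IntermediateField.fg_top_iff, ← hfg]
    exact IntermediateField.fg_adjoin_of_finite (Set.finite_range _)
  refine ⟨hess, le_antisymm (hV3b ℂ K v.1 n hw.dim) ?_⟩
  have hft : Algebra.FiniteType ℂ (chart w i) := .adjoin_of_finite (Set.finite_range _)
  have hfr : IsFractionRing (chart w i) K := hXA1 K N (n + 1) w hw i hi
  obtain ⟨s, g, hg1, hg2⟩ := exists_integral_inj_algHom_of_fg ℂ (chart w i)
  let _ : Algebra (MvPolynomial (Fin s) ℂ) (chart w i) := g.toRingHom.toAlgebra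
  have hfaith : FaithfulSMul (MvPolynomial (Fin s) ℂ) (chart w i) :=
    (faithfulSMul_iff_algebraMap_injective _ _).2 hg1
  have hint : Algebra.IsIntegral (MvPolynomial (Fin s) ℂ) (chart w i) := ⟨hg2⟩
  have htower : IsScalarTower ℂ (MvPolynomial (Fin s) ℂ) (chart w i) :=
    IsScalarTower.of_algebraMap_eq fun x => (g.commutes x).symm
  -- the number of variables
  have hs : s = n + 1 := by
    have h1 := (IsTranscendenceBasis.mvPolynomial (Fin s) ℂ).algebraMap_comp (A := chart w i)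
    have halg : Algebra.IsAlgebraic (chart w i) K :=
      IsLocalization.isAlgebraic _ (nonZeroDivisors (chart w i))
    have h2 := h1.algebraMap_comp (A := K)
    have h3 := h2.cardinalMk_eq_trdeg
    rw [hw.dim, Cardinal.mk_fin] at h3
    exact_mod_cast h3
  -- the centre
  let ρ0 : chart w i →ₐ[ℂ] v.1.vs :=
    { toFun := fun a => ⟨(a : K), hnn a a.2⟩
      map_one' := rfl
      map_mul' := fun _ _ => rfl
      map_zero' := rfl
      map_add' := fun _ _ => rfl
      commutes' := fun _ => rfl }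
  let ρ : chart w i →ₐ[ℂ] v.1.Res := (IsScalarTower.toAlgHom ℂ v.1.vs v.1.Res).comp ρ0
  have hρ : ∀ a, ρ a = v.1.red (a : K) := by
    intro a
    rw [v.1.red_of_nonneg (hnn a a.2)]
    rfl
  have hρ0 : ∀ a : chart w i, ρ a = 0 ↔ (a : K) = 0 ∨ 0 < v.1.ord (a : K) := by
    intro a
    rw [hρ, v.1.red_eq_zero_iff (hnn a a.2)]
  let q : Ideal (chart w i) := RingHom.ker ρ
  have hq : q.IsPrime := RingHom.ker_isPrime ρ
  have hmem : ∀ a : chart w i, a ∈ q ↔ (a : K) = 0 ∨ 0 < v.1.ord (a : K) := by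
    intro a
    rw [← hρ0]; rfl
  have hqne : q ≠ ⊥ := by
    intro hq0
    obtain ⟨x, hx0, hx1⟩ := v.1.ord_surj
    obtain ⟨a, ha, b, hb, hb0, hb1, hab⟩ := hloc x (by omega)
    have ha0 : a ≠ 0 := by
      rintro rfl
      rw [zero_div] at hab
      exact hx0 hab
    have h1 : v.1.ord a = 1 := by
      rw [hab, v.1.ord_div ha0 hb0, hb1] at hx1
      omega
    have h2 : (⟨a, ha⟩ : chart w i) ∈ q := (hmem _).2 (Or.inr (by rw [h1]; norm_num))
    rw [hq0] at h2
    exact ha0 (congrArg Subtype.val h2)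
  have hmin : ∀ q1 : Ideal (chart w i), q1.IsPrime → q1 ≤ q → q1 ≠ ⊥ → q1 = q := by
    intro q1 hq1 hle hne
    refine le_antisymm hle ?_
    obtain ⟨a, ha, ha0⟩ := Submodule.exists_mem_ne_zero_of_ne_bot hne
    have ha0' : (a : K) ≠ 0 := fun h => ha0 (Subtype.ext h)
    intro b hb
    rcases (hmem b).1 hb with hb0 | hb1
    · have : b = 0 := Subtype.ext hb0
      rw [this]; exact q1.zero_mem
    have hb0' : (b : K) ≠ 0 := fun h => by rw [h, v.1.ord_zero] at hb1; exact lt_irrefl _ hb1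
    obtain ⟨M, hM⟩ : ∃ M : ℕ, v.1.ord (a : K) ≤ M := ⟨(v.1.ord (a : K)).toNat, Int.self_le_toNat _⟩
    have h1 : 0 ≤ v.1.ord ((b : K) ^ M / (a : K)) := by
      rw [v.1.ord_div (pow_ne_zero _ hb0') ha0', v.1.ord_pow]
      have : (M : ℤ) ≤ M * v.1.ord (b : K) := by nlinarith [Int.natCast_nonneg M]
      omega
    obtain ⟨c, hc, d, hd, hd0, hd1, hcd⟩ := hloc _ h1
    have h2 : (b : K) ^ M * d = a * c := by
      field_simp at hcd
      linear_combination hcd
    have h3 : b ^ M * ⟨d, hd⟩ = a * ⟨c, hc⟩ := Subtype.ext (by push_cast; exact h2)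
    have h4 : b ^ M * ⟨d, hd⟩ ∈ q1 := by
      rw [h3]; exact Ideal.mul_mem_right _ _ ha
    rcases hq1.mem_or_mem h4 with h5 | h5
    · exact hq1.mem_of_pow_mem _ h5
    · exfalso
      rcases (hmem _).1 (hle h5) with h6 | h6
      · exact hd0 h6
      · change 0 < v.1.ord d at h6
        omega
  -- going down
  set q0 : Ideal (MvPolynomial (Fin s) ℂ) := q.under (MvPolynomial (Fin s) ℂ) with hq0
  have hq0ne : q0 ≠ ⊥ := fun h => hqne (Ideal.eq_bot_of_comap_eq_bot h)
  have hq0p : q0.IsPrime := Ideal.IsPrime.under _ q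
  obtain ⟨f, hf1, hf2⟩ := Ideal.IsPrime.exists_mem_prime_of_ne_bot hq0p hq0ne
  have hp1 : (Ideal.span {f}).IsPrime := (Ideal.span_singleton_prime hf2.ne_zero).2 hf2
  have hlo : q.LiesOver q0 := ⟨rfl⟩
  obtain ⟨q1, hq1a, hq1b, hq1c⟩ := Ideal.exists_ideal_le_liesOver_of_le (p := Ideal.span {f})
    (q := q0) q ((Ideal.span_singleton_le_iff_mem _).2 hf1)
  have hover := hq1c.over
  have hq1ne : q1 ≠ ⊥ := by
    intro h
    have h1 : f ∈ q1.under (MvPolynomial (Fin s) ℂ) := by
      rw [← hover]; exact Ideal.mem_span_singleton_self f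
    rw [h] at h1
    have h2 : g f = 0 := h1
    exact hf2.ne_zero (hg1 (by rw [h2, map_zero]))
  have hq1q := hmin q1 hq1b hq1a hq1ne
  rw [hq1q] at hover
  have hker : ∀ h : MvPolynomial (Fin s) ℂ, aeval (fun j => ρ (g (X j))) h = 0 → f ∣ h := by
    intro h hh
    rw [← Ideal.mem_span_singleton, hover]
    change ρ (g h) = 0
    rw [← hh]
    have : (aeval (fun j => ρ (g (X j))) : MvPolynomial (Fin s) ℂ →ₐ[ℂ] v.1.Res) = ρ.comp g := by
      apply MvPolynomial.algHom_ext
      intro j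
      simp
    rw [this]; rfl
  obtain ⟨j0, hj0⟩ := indep_of_prime _ hf2 hker
  have h1 := hj0.cardinalMk_le_trdeg
  rw [← Nat.cast_card] at h1
  have h2 : Nat.card {j : Fin s // j ≠ j0} = n := by
    rw [Nat.card_eq_fintype_card, Fintype.card_subtype_compl]
    simp [hs]
  rw [h2] at h1
  exact h1

end Pool.Agent.H70.SCX
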